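import Pool.Agent.helper63.NU.Defs2

set_option autoImplicit false
set_option linter.all false

/-! Module A7: linear algebra of positive Hermitian matrices. -/

open MeasureTheory Filter Topology Set
open scoped ContDiff Manifold Matrix ENNReal ComplexOrder

noncomputable section

namespace Pool.Agent.helper63.NU

variable {n : ℕ}

variable {Θ Θ' : Matrix (Fin n) (Fin n) ℂ}

theorem a7_inv_mul (hΘ : Θ.PosDef) : Θ⁻¹ * Θ = 1 :=
  Matrix.nonsing_inv_mul Θ ((Matrix.isUnit_iff_isUnit_det Θ).1 hΘ.isUnit)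

theorem a7_mul_inv (hΘ : Θ.PosDef) : Θ * Θ⁻¹ = 1 :=
  Matrix.mul_nonsing_inv Θ ((Matrix.isUnit_iff_isUnit_det Θ).1 hΘ.isUnit)

theorem a7_inv_conj (hΘ : Θ.PosDef) (j k : Fin n) :
    (starRingEnd ℂ) (Θ⁻¹ j k) = Θ⁻¹ k j := by
  have h : (Θ⁻¹)ᴴ = Θ⁻¹ := hΘ.inv.isHermitian
  have h2 := congrFun (congrFun h k) j
  simpa [Matrix.conjTranspose_apply] using h2

theorem sum_mul_rs (hΘ : Θ.PosDef) (α : Fin n → ℂ) (k : Fin n) :
    ∑ j, Θ j k * rs Θ α j = α k := by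
  have h1 : ∀ l, ∑ j, Θ⁻¹ l j * Θ j k = (1 : Matrix (Fin n) (Fin n) ℂ) l k := by
    intro l
    have := congrFun (congrFun (a7_inv_mul hΘ) l) k
    rw [← this, Matrix.mul_apply]
  calc ∑ j, Θ j k * rs Θ α j = ∑ j, ∑ l, Θ j k * (Θ⁻¹ l j * α l) := by
        simp only [rs, Finset.mul_sum]
    _ = ∑ l, ∑ j, Θ j k * (Θ⁻¹ l j * α l) := Finset.sum_comm
    _ = ∑ l, (∑ j, Θ⁻¹ l j * Θ j k) * α l := by
        refine Finset.sum_congr rfl fun l _ => ?_
        rw [Finset.sum_mul]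
        refine Finset.sum_congr rfl fun j _ => ?_
        ring
    _ = α k := by
        simp [h1, Matrix.one_apply]

/-- the solution of `Θᵀ a = α` is unique -/
theorem rs_eq_of (hΘ : Θ.PosDef) {α a : Fin n → ℂ} (h : ∀ k, ∑ j, Θ j k * a j = α k)
    (i : Fin n) : rs Θ α i = a i := by
  have h1 : ∀ j, ∑ k, Θ j k * Θ⁻¹ k i = (1 : Matrix (Fin n) (Fin n) ℂ) j i := by
    intro l
    have := congrFun (congrFun (a7_mul_inv hΘ) l) i
    rw [← this, Matrix.mul_apply]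
  calc rs Θ α i = ∑ k, ∑ j, Θ⁻¹ k i * (Θ j k * a j) := by
        simp only [rs, ← h, Finset.mul_sum]
    _ = ∑ j, ∑ k, Θ⁻¹ k i * (Θ j k * a j) := Finset.sum_comm
    _ = ∑ j, (∑ k, Θ j k * Θ⁻¹ k i) * a j := by
        refine Finset.sum_congr rfl fun l _ => ?_
        rw [Finset.sum_mul]
        refine Finset.sum_congr rfl fun j _ => ?_
        ring
    _ = a i := by
        simp [h1, Matrix.one_apply]

theorem cn_eq_left (Θ : Matrix (Fin n) (Fin n) ℂ) (α β : Fin n → ℂ) :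
    cn Θ α β = ∑ j, rs Θ α j * (starRingEnd ℂ) (β j) := by
  unfold cn rs
  rw [Finset.sum_comm]
  refine Finset.sum_congr rfl fun j _ => ?_
  rw [Finset.sum_mul]
  refine Finset.sum_congr rfl fun k _ => ?_
  ring

theorem cn_eq_right (hΘ : Θ.PosDef) (α β : Fin n → ℂ) :
    cn Θ α β = ∑ k, α k * (starRingEnd ℂ) (rs Θ β k) := by
  unfold cn rs
  refine Finset.sum_congr rfl fun k _ => ?_
  rw [map_sum, Finset.mul_sum]
  refine Finset.sum_congr rfl fun j _ => ?_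
  rw [map_mul, a7_inv_conj hΘ]
  ring

theorem cn_conj (hΘ : Θ.PosDef) (α β : Fin n → ℂ) :
    (starRingEnd ℂ) (cn Θ α β) = cn Θ β α := by
  rw [cn_eq_left Θ α β, cn_eq_right hΘ β α, map_sum]
  refine Finset.sum_congr rfl fun k _ => ?_
  rw [map_mul, Complex.conj_conj]
  ring

theorem cn_self_im (hΘ : Θ.PosDef) (α : Fin n → ℂ) : (cn Θ α α).im = 0 :=
  Complex.conj_eq_iff_im.1 (cn_conj hΘ α α)

theorem a7_cn_dot (Θ : Matrix (Fin n) (Fin n) ℂ) (α : Fin n → ℂ) :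
    cn Θ α α = star (star α) ⬝ᵥ (Θ⁻¹ *ᵥ (star α)) := by
  simp only [cn, dotProduct, Matrix.mulVec, star_star, Pi.star_apply, Finset.mul_sum, mul_assoc]
  rfl

theorem cn_self_nonneg (hΘ : Θ.PosDef) (α : Fin n → ℂ) : 0 ≤ (cn Θ α α).re := by
  rw [a7_cn_dot]
  exact (Complex.le_def.1 (hΘ.inv.posSemidef.dotProduct_mulVec_nonneg (star α))).1

theorem cn_self_pos (hΘ : Θ.PosDef) {α : Fin n → ℂ} (hα : α ≠ 0) : 0 < (cn Θ α α).re := by
  rw [a7_cn_dot]
  exact (Complex.lt_def.1 (hΘ.inv.dotProduct_mulVec_pos (star_ne_zero.2 hα))).1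

theorem cn_rs (hΘ : Θ.PosDef) (α β : Fin n → ℂ) :
    cn Θ α β = ∑ j, ∑ k, Θ j k * rs Θ α j * (starRingEnd ℂ) (rs Θ β k) := by
  rw [cn_eq_right hΘ, Finset.sum_comm]
  refine Finset.sum_congr rfl fun k _ => ?_
  rw [← Finset.sum_mul, sum_mul_rs hΘ]

theorem a7_cn_re (hΘ : Θ.PosDef) (α : Fin n → ℂ) : cn Θ α α = ((cn Θ α α).re : ℂ) := by
  apply Complex.ext
  · simp
  · simp [cn_self_im hΘ]

theorem cn_cauchy (hΘ : Θ.PosDef) (α β : Fin n → ℂ) :
    ‖cn Θ α β‖ ^ 2 ≤ (cn Θ α α).re * (cn Θ β β).re := by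
  by_cases hβ : β = 0
  · subst hβ
    have h0 : cn Θ α 0 = 0 := by simp [cn]
    have h1 : cn Θ (0 : Fin n → ℂ) 0 = 0 := by simp [cn]
    rw [h0, h1]; simp
  have hB := cn_self_pos hΘ hβ
  set B := (cn Θ β β).re with hBdef
  set s := cn Θ α β with hs
  have key : ∀ t : ℂ, cn Θ (fun k => α k + t * β k) (fun k => α k + t * β k)
      = cn Θ α α + (starRingEnd ℂ) t * cn Θ α β + t * cn Θ β α
        + t * (starRingEnd ℂ) t * cn Θ β β := by
    intro t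
    simp only [cn, Finset.mul_sum, ← Finset.sum_add_distrib]
    refine Finset.sum_congr rfl fun k _ => Finset.sum_congr rfl fun j _ => ?_
    simp only [map_add, map_mul]
    ring
  have h2 := cn_self_nonneg hΘ (fun k => α k + (-s / B) * β k)
  rw [key] at h2
  rw [← cn_conj hΘ α β, ← hs, a7_cn_re hΘ β, ← hBdef] at h2
  have hBne : (B : ℂ) ≠ 0 := by exact_mod_cast hB.ne'
  have e : cn Θ α α + (starRingEnd ℂ) (-s / (B : ℂ)) * s + (-s / (B : ℂ)) * (starRingEnd ℂ) s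
      + (-s / (B : ℂ)) * (starRingEnd ℂ) (-s / (B : ℂ)) * (B : ℂ)
      = cn Θ α α - ((‖s‖ ^ 2 / B : ℝ) : ℂ) := by
    have hh : ((‖s‖ ^ 2 / B : ℝ) : ℂ) = s * (starRingEnd ℂ) s / B := by
      rw [Complex.mul_conj, Complex.normSq_eq_norm_sq]; push_cast; rfl
    rw [hh]
    simp only [map_div₀, map_neg, Complex.conj_ofReal]
    field_simp
    ring
  rw [e, Complex.sub_re, Complex.ofReal_re] at h2
  have h3 : ‖s‖ ^ 2 / B ≤ (cn Θ α α).re := by linarith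
  rwa [div_le_iff₀ hB] at h3

theorem a7_self (hΘ : Θ.PosDef) (α : Fin n → ℂ) : ‖cn Θ α α‖ = (cn Θ α α).re := by
  rw [a7_cn_re hΘ α, Complex.norm_real, Real.norm_eq_abs, abs_of_nonneg (cn_self_nonneg hΘ α)]
  simp

theorem cn_le_of_forall (hΘ : Θ.PosDef) {α : Fin n → ℂ} {c : ℝ} (hc : 0 ≤ c)
    (h : ∀ v : Fin n → ℂ, ‖∑ k, α k * (starRingEnd ℂ) (v k)‖ ^ 2
      ≤ c * (∑ j, ∑ k, Θ j k * v j * (starRingEnd ℂ) (v k)).re) :
    (cn Θ α α).re ≤ c := by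
  have h1 := h (rs Θ α)
  rw [← cn_eq_right hΘ, ← cn_rs hΘ, a7_self hΘ] at h1
  have h2 := cn_self_nonneg hΘ α
  rcases h2.eq_or_lt with h3 | h3
  · rw [← h3]; exact hc
  · rw [sq] at h1
    exact le_of_mul_le_mul_right h1 h3

theorem a7_pair (hΘ : Θ.PosDef) (α v : Fin n → ℂ) :
    ‖∑ k, α k * (starRingEnd ℂ) (v k)‖ ^ 2
      ≤ (cn Θ α α).re * (∑ j, ∑ k, Θ j k * v j * (starRingEnd ℂ) (v k)).re := by
  set β : Fin n → ℂ := fun k => ∑ j, Θ j k * v j with hβ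
  have h1 : ∀ i, rs Θ β i = v i := rs_eq_of hΘ (fun k => rfl)
  have h2 := cn_cauchy hΘ α β
  rw [cn_rs hΘ β β, cn_eq_right hΘ α β] at h2
  simpa only [h1] using h2

theorem cn_mono (hΘ : Θ.PosDef) {c : ℝ} (hc : 0 < c) (hΘ' : Θ'.PosDef)
    (h : ∀ v : Fin n → ℂ, c * (∑ j, ∑ k, Θ j k * v j * (starRingEnd ℂ) (v k)).re
      ≤ (∑ j, ∑ k, Θ' j k * v j * (starRingEnd ℂ) (v k)).re) (α : Fin n → ℂ) :
    (cn Θ' α α).re ≤ (cn Θ α α).re / c := by
  refine cn_le_of_forall hΘ' (div_nonneg (cn_self_nonneg hΘ α) hc.le) fun v => ?_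
  refine (a7_pair hΘ α v).trans ?_
  rw [div_mul_eq_mul_div, le_div_iff₀ hc, mul_assoc]
  refine mul_le_mul_of_nonneg_left ?_ (cn_self_nonneg hΘ α)
  rw [mul_comm]
  exact h v

/-- change of coordinates: `Θ = Dᵀ Θ' conj D`, `α = c conj(D)ᵀ α'` -/
theorem rs_comp (hΘ : Θ.PosDef) (hΘ' : Θ'.PosDef) {D : Matrix (Fin n) (Fin n) ℂ}
    (hD : ∀ j k, Θ j k = ∑ i, ∑ l, D i j * Θ' i l * (starRingEnd ℂ) (D l k))
    {c : ℂ} {α α' : Fin n → ℂ} (hα : ∀ k, α k = c * ∑ l, α' l * (starRingEnd ℂ) (D l k))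
    (i : Fin n) : ∑ j, D i j * rs Θ α j = c * rs Θ' α' i := by
  have hM : Θᵀ = Dᴴ * (Θ'ᵀ * D) := by
    ext k j
    rw [Matrix.transpose_apply, hD j k, Matrix.mul_apply, Finset.sum_comm]
    refine Finset.sum_congr rfl fun l _ => ?_
    rw [Matrix.mul_apply, Finset.mul_sum]
    refine Finset.sum_congr rfl fun i _ => ?_
    rw [Matrix.conjTranspose_apply, Matrix.transpose_apply]
    change _ = (starRingEnd ℂ) (D l k) * _
    ring
  have hu : IsUnit Dᴴ := by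
    have h1 : IsUnit Θᵀ.det := by
      rw [Matrix.det_transpose]; exact (Matrix.isUnit_iff_isUnit_det Θ).1 hΘ.isUnit
    rw [hM, Matrix.det_mul] at h1
    exact (Matrix.isUnit_iff_isUnit_det _).2 (isUnit_of_mul_isUnit_left h1)
  have hinv : (Dᴴ)⁻¹ * Dᴴ = 1 := Matrix.nonsing_inv_mul _ ((Matrix.isUnit_iff_isUnit_det _).1 hu)
  have h1 : Θᵀ *ᵥ (rs Θ α) = α := by
    funext k
    simp only [Matrix.mulVec, dotProduct, Matrix.transpose_apply]
    exact sum_mul_rs hΘ α k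
  have h2 : α = Dᴴ *ᵥ (c • α') := by
    funext k
    rw [hα k, Finset.mul_sum]
    simp only [Matrix.mulVec, dotProduct, Matrix.conjTranspose_apply, Pi.smul_apply, smul_eq_mul]
    refine Finset.sum_congr rfl fun l _ => ?_
    change _ = (starRingEnd ℂ) (D l k) * _
    ring
  have h3 : Θ'ᵀ *ᵥ (D *ᵥ rs Θ α) = c • α' := by
    have h4 : Dᴴ *ᵥ (Θ'ᵀ *ᵥ (D *ᵥ rs Θ α)) = Dᴴ *ᵥ (c • α') := by
      rw [← h2, Matrix.mulVec_mulVec, Matrix.mulVec_mulVec, Matrix.mul_assoc, ← hM, h1]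
    have h5 := congrArg (fun w => (Dᴴ)⁻¹ *ᵥ w) h4
    simpa only [Matrix.mulVec_mulVec, ← Matrix.mul_assoc, hinv, Matrix.one_mul,
      Matrix.one_mulVec] using h5
  have h6 : rs Θ' (c • α') i = (D *ᵥ rs Θ α) i := by
    refine rs_eq_of hΘ' (fun k => ?_) i
    rw [← h3]
    rfl
  have h7 : rs Θ' (c • α') i = c * rs Θ' α' i := by
    simp only [rs, Pi.smul_apply, smul_eq_mul, Finset.mul_sum]
    refine Finset.sum_congr rfl fun k _ => ?_
    ring
  rw [← h7, h6]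
  rfl

theorem cn_comp (hΘ : Θ.PosDef) (hΘ' : Θ'.PosDef) {D : Matrix (Fin n) (Fin n) ℂ}
    (hD : ∀ j k, Θ j k = ∑ i, ∑ l, D i j * Θ' i l * (starRingEnd ℂ) (D l k))
    {c d : ℂ} {α α' β β' : Fin n → ℂ}
    (hα : ∀ k, α k = c * ∑ l, α' l * (starRingEnd ℂ) (D l k))
    (hβ : ∀ k, β k = d * ∑ l, β' l * (starRingEnd ℂ) (D l k)) :
    cn Θ α β = c * (starRingEnd ℂ) d * cn Θ' α' β' := by
  rw [cn_eq_right hΘ, cn_eq_right hΘ' α' β']
  have h1 : ∀ l, ∑ k, D l k * rs Θ β k = d * rs Θ' β' l := rs_comp hΘ hΘ' hD hβ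
  calc ∑ k, α k * (starRingEnd ℂ) (rs Θ β k)
      = ∑ k, ∑ l, c * (α' l * ((starRingEnd ℂ) (D l k) * (starRingEnd ℂ) (rs Θ β k))) := by
        refine Finset.sum_congr rfl fun k _ => ?_
        rw [hα k, mul_assoc, Finset.sum_mul, Finset.mul_sum]
        refine Finset.sum_congr rfl fun l _ => ?_
        ring
    _ = ∑ l, ∑ k, c * (α' l * ((starRingEnd ℂ) (D l k) * (starRingEnd ℂ) (rs Θ β k))) :=
        Finset.sum_comm
    _ = ∑ l, c * (α' l * (starRingEnd ℂ) (∑ k, D l k * rs Θ β k)) := by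
        refine Finset.sum_congr rfl fun l _ => ?_
        rw [map_sum, Finset.mul_sum, Finset.mul_sum]
        refine Finset.sum_congr rfl fun k _ => ?_
        rw [map_mul]
    _ = c * (starRingEnd ℂ) d * ∑ k, α' k * (starRingEnd ℂ) (rs Θ' β' k) := by
        rw [Finset.mul_sum]
        refine Finset.sum_congr rfl fun l _ => ?_
        rw [h1 l, map_mul]
        ring

theorem a7_factor (hΘ : Θ.PosDef) : ∃ R : Matrix (Fin n) (Fin n) ℂ, Θ⁻¹ = Rᴴ * R := by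
  have h := hΘ.inv.posSemidef
  open scoped MatrixOrder Matrix.Norms.L2Operator in
  exact CStarAlgebra.nonneg_iff_eq_star_mul_self.mp h.nonneg

/-- positivity of the curvature-free term of the Bochner formula -/
theorem q_nonneg (hΘ : Θ.PosDef) {B : Matrix (Fin n) (Fin n) ℂ}
    (hs : ∀ k l, ∑ j, Θ j l * B j k = ∑ j, Θ j k * B j l) :
    0 ≤ (∑ j, ∑ k, B j k * (starRingEnd ℂ) (B k j)).re := by
  obtain ⟨R, hR⟩ := a7_factor hΘ
  obtain ⟨C, hC⟩ : ∃ C : Matrix (Fin n) (Fin n) ℂ, C = Θᵀ * B := ⟨_, rfl⟩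
  have hCs : Cᵀ = C := by
    ext k l
    rw [Matrix.transpose_apply, hC, Matrix.mul_apply, Matrix.mul_apply]
    simp only [Matrix.transpose_apply]
    exact hs k l
  have hB : B = Rᵀ * Rᴴᵀ * C := by
    rw [← Matrix.transpose_mul, ← hR, hC, ← Matrix.mul_assoc, ← Matrix.transpose_mul,
      a7_mul_inv hΘ, Matrix.transpose_one, Matrix.one_mul]
  have hCc : Cᴴᵀ = C.map (starRingEnd ℂ) := rfl
  have hCh : Cᴴᵀ = Cᴴ := by
    ext i j
    have := congrFun (congrFun hCs i) j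
    rw [Matrix.transpose_apply] at this
    simp [Matrix.conjTranspose_apply, this]
  have hBt : Bᴴᵀ = Rᴴ * R * Cᴴ := by
    rw [hB, Matrix.conjTranspose_mul, Matrix.conjTranspose_mul, Matrix.transpose_mul,
      Matrix.transpose_mul, hCh]
    have e2 : Rᴴᵀᴴᵀ = R := by
      ext i j; simp
    have e3 : Rᵀᴴᵀ = Rᴴ := by
      ext i j; simp
    rw [e2, e3]
  have h1 : ∑ j, ∑ k, B j k * (starRingEnd ℂ) (B k j)
      = ((Rᴴᵀ * C * Rᴴ) * (Rᴴᵀ * C * Rᴴ)ᴴ).trace := by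
    have h2 : ∑ j, ∑ k, B j k * (starRingEnd ℂ) (B k j) = (B * Bᴴᵀ).trace := by
      simp only [Matrix.trace, Matrix.diag, Matrix.mul_apply, Matrix.transpose_apply,
        Matrix.conjTranspose_apply]
      rfl
    have h3 : (Rᴴᵀ * C * Rᴴ)ᴴ = R * Cᴴ * Rᵀ := by
      have e2 : Rᴴᵀᴴ = Rᵀ := by
        ext i j; simp
      rw [Matrix.conjTranspose_mul, Matrix.conjTranspose_mul, Matrix.conjTranspose_conjTranspose,
        Matrix.mul_assoc, e2]
    rw [h2, hBt, h3, hB]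
    rw [Matrix.mul_assoc Rᵀ, Matrix.mul_assoc Rᵀ, Matrix.trace_mul_comm]
    simp only [Matrix.mul_assoc]
  rw [h1]
  exact (Complex.le_def.1
    (Matrix.posSemidef_self_mul_conjTranspose (Rᴴᵀ * C * Rᴴ)).trace_nonneg).1

/-- trace of a product is invariant under `B' conj D = c D B` -/
theorem q_comp {B B' C C' D : Matrix (Fin n) (Fin n) ℂ} (hD : IsUnit D.det) {c d : ℂ}
    (hB : ∀ i m, ∑ l, B' i l * (starRingEnd ℂ) (D l m) = c * ∑ j, D i j * B j m)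
    (hC : ∀ i m, ∑ l, C' i l * (starRingEnd ℂ) (D l m) = d * ∑ j, D i j * C j m) :
    ∑ j, ∑ k, B' j k * (starRingEnd ℂ) (C' k j)
      = c * (starRingEnd ℂ) d * ∑ j, ∑ k, B j k * (starRingEnd ℂ) (C k j) := by
  have hs : ∀ X Y : Matrix (Fin n) (Fin n) ℂ,
      ∑ j, ∑ k, X j k * (starRingEnd ℂ) (Y k j) = (X * Y.map (starRingEnd ℂ)).trace := by
    intro X Y
    simp only [Matrix.trace, Matrix.diag, Matrix.mul_apply, Matrix.map_apply]
  rw [hs, hs]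
  have hB1 : B' * D.map (starRingEnd ℂ) = c • (D * B) := by
    ext i m
    simpa [Matrix.mul_apply] using hB i m
  have hC1 : C' * D.map (starRingEnd ℂ) = d • (D * C) := by
    ext i m
    simpa [Matrix.mul_apply] using hC i m
  have hC2 : C'.map (starRingEnd ℂ) * D
      = (starRingEnd ℂ) d • (D.map (starRingEnd ℂ) * C.map (starRingEnd ℂ)) := by
    have h : (C' * D.map (starRingEnd ℂ)).map (starRingEnd ℂ)
        = (d • (D * C)).map (starRingEnd ℂ) := by rw [hC1]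
    rw [Matrix.map_mul] at h
    have e1 : (D.map (starRingEnd ℂ)).map (starRingEnd ℂ) = D := by
      ext i j; simp
    rw [e1] at h
    rw [h, ← Matrix.map_mul]
    ext i j
    simp [Matrix.mul_apply]
  have hDi : D * D⁻¹ = 1 := Matrix.mul_nonsing_inv _ hD
  have hDj : D⁻¹ * D = 1 := Matrix.nonsing_inv_mul _ hD
  have h1 : B' * C'.map (starRingEnd ℂ)
      = (c * (starRingEnd ℂ) d) • (D * (B * C.map (starRingEnd ℂ)) * D⁻¹) := by
    have h2 : B' * C'.map (starRingEnd ℂ) = B' * (C'.map (starRingEnd ℂ) * D) * D⁻¹ := by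
      rw [Matrix.mul_assoc, Matrix.mul_assoc, hDi, Matrix.mul_one]
    rw [h2, hC2, Matrix.mul_smul, ← Matrix.mul_assoc B', hB1]
    simp only [Matrix.smul_mul, Matrix.mul_assoc, smul_smul, mul_comm]
  rw [h1, Matrix.trace_smul, Matrix.trace_mul_comm, ← Matrix.mul_assoc, hDj, Matrix.one_mul,
    smul_eq_mul]

end Pool.Agent.helper63.NU
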