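import Pool.Agent.helper63.NU.Defs2
import Pool.Agent.helper69.NU.B1
import Pool.Agent.helper51.NU.B3
import Pool.Agent.helper80.NU.B4
import Pool.Agent.helper53.NU.C1

set_option autoImplicit false
set_option linter.all false

/-! Module C2b: global sub-mean value inequality. -/

open MeasureTheory Filter Topology Set
open scoped ContDiff Manifold Matrix ENNReal ComplexOrder

noncomputable section

namespace Pool.Agent.helper63.NU

variable {n : ℕ} {M : Type*} [TopologicalSpace M] [ChartedSpace (E n) M]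
  [IsManifold 𝓘(ℂ, E n) ω M]
variable [CompactSpace M] [T2Space M]
variable [MeasurableSpace M] [BorelSpace M] {μ : Measure M} {φ : Fam n M ℝ}

theorem c2b_nrm_nonneg (k : ℕ) (φ : Fam n M ℝ) (s : Fam n M ℂ) (x : M) : 0 ≤ nrm k φ s x := by
  unfold nrm; positivity

theorem c2b_local [Nonempty M] (hφ : IsPos 1 φ) (hμ : IsDens μ φ) {e : Ch n M}
    (he : e ∈ atlas (E n) M) {K : Set (E n)} (hK : IsCompact K) (hKU : K ⊆ e.target) :
    ∃ C > 0, ∀ k : ℕ, 1 ≤ k → ∀ s : Fam n M ℂ, IsHol k s → ∀ x ∈ e.source, e x ∈ K →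
      nrm k φ s x ≤ C * (k : ℝ) ^ n * ∫ x, nrm k φ s x * dl φ x ∂μ := by
  rcases K.eq_empty_or_nonempty with hKe | hKn
  · refine ⟨1, one_pos, fun k _ s _ x _ hx => ?_⟩
    rw [hKe] at hx
    exact absurd hx (Set.notMem_empty _)
  haveI := isFiniteMeasure_of_isDens hφ.toIsWeight hμ
  obtain ⟨C0, hC0, r, hr, hsub⟩ := submean_unif e.open_target (hφ.smooth e he) hK hKU
  -- lower bound for `dl`
  obtain ⟨x0, -, hx0⟩ := isCompact_univ.exists_isMinOn (univ_nonempty (α := M))
    (continuous_dl hφ).continuousOn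
  set δ := dl φ x0 with hδ
  have hδpos : 0 < δ := dl_pos hφ x0
  have hδle : ∀ x, δ ≤ dl φ x := fun x => hx0 (mem_univ x)
  -- lower bound for `exp (-φ e)`
  set K' := Metric.cthickening r K with hK'
  have hK'c : IsCompact K' := hK.cthickening
  have hK'U : K' ⊆ e.target := by
    rw [hK', hK.cthickening_eq_biUnion_closedBall hr.le]
    exact iUnion₂_subset fun p hp => (hsub p hp).1
  have hK'n : K'.Nonempty := hKn.mono (Metric.self_subset_cthickening K)
  have hcφ : ContinuousOn (φ e) e.target := (hφ.smooth e he).continuousOn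
  have hcexp : ContinuousOn (fun y => Real.exp (-φ e y)) e.target :=
    Real.continuous_exp.comp_continuousOn hcφ.neg
  obtain ⟨y0, hy0, hmin⟩ := hK'c.exists_isMinOn hK'n (hcexp.mono hK'U)
  set m := Real.exp (-φ e y0) with hm
  have hmpos : 0 < m := Real.exp_pos _
  have hmle : ∀ y ∈ K', m ≤ Real.exp (-φ e y) := fun y hy => hmin hy
  refine ⟨C0 / (m * δ), by positivity, fun k hk s hs x hx hxK => ?_⟩
  have hk1 : (1 : ℝ) ≤ Real.sqrt k := by
    rw [show (1 : ℝ) = Real.sqrt 1 by simp]
    exact Real.sqrt_le_sqrt (by exact_mod_cast hk)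
  have hrk : r / Real.sqrt k ≤ r := div_le_self hr.le hk1
  set p := e x with hp
  set cB := Metric.closedBall p (r / Real.sqrt k) with hcB
  have hcBr : cB ⊆ Metric.closedBall p r := Metric.closedBall_subset_closedBall hrk
  have hcBK' : cB ⊆ K' := hcBr.trans (Metric.closedBall_subset_cthickening hxK r)
  have hcBU : cB ⊆ e.target := hcBr.trans (hsub p hxK).1
  have hcBc : IsCompact cB := isCompact_closedBall _ _
  have h1 := (hsub p hxK).2 k hk (s e) ((hs.hol e he).mono hcBU)
  rw [← nrm_eq hφ.toIsWeight hs.toIsSec he hx] at h1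
  have hcs : ContinuousOn (s e) e.target := (hs.smooth e he).continuousOn
  have hcf : ContinuousOn (fun y => ‖s e y‖ ^ 2 * Real.exp (-(k * φ e y))) e.target :=
    (hcs.norm.pow 2).mul (Real.continuous_exp.comp_continuousOn (continuousOn_const.mul hcφ).neg)
  have hnonneg : ∀ y, 0 ≤ ‖s e y‖ ^ 2 * Real.exp (-(k * φ e y)) := fun y => by positivity
  -- insert the density
  have h2 : m * ∫ y in cB, ‖s e y‖ ^ 2 * Real.exp (-(k * φ e y))
      ≤ ∫ y in cB, ‖s e y‖ ^ 2 * Real.exp (-(k * φ e y)) * Real.exp (-φ e y) := by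
    rw [← integral_const_mul]
    refine setIntegral_mono_on ?_ ?_ hcBc.measurableSet fun y hy => ?_
    · exact ((hcf.mono hcBU).integrableOn_compact hcBc).const_mul m
    · exact ((hcf.mul hcexp).mono hcBU).integrableOn_compact hcBc
    · rw [mul_comm]
      exact mul_le_mul_of_nonneg_left (hmle y (hcBK' hy)) (hnonneg y)
  -- transfer to the manifold
  set S := e.symm '' cB with hS
  have hSc : IsCompact S := hcBc.image_of_continuousOn (e.continuousOn_symm.mono hcBU)
  have hSm : MeasurableSet S := hSc.isClosed.measurableSet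
  have hSs : S ⊆ e.source := by
    rintro _ ⟨y, hy, rfl⟩
    exact e.map_target (hcBU hy)
  have hcn : Continuous (nrm k φ s) := continuous_nrm hφ.toIsWeight hs.toIsSec
  have hint : Integrable (nrm k φ s) μ := by
    have := hcn.continuousOn.integrableOn_compact (μ := μ) (isCompact_univ (X := M))
    rwa [integrableOn_univ] at this
  have hint2 : Integrable (fun x => nrm k φ s x * dl φ x) μ := by
    have := (hcn.mul (continuous_dl hφ)).continuousOn.integrableOn_compact (μ := μ)
      (isCompact_univ (X := M))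
    rwa [integrableOn_univ] at this
  have h3 : ∫ y in cB, ‖s e y‖ ^ 2 * Real.exp (-(k * φ e y)) * Real.exp (-φ e y)
      = ∫ x in S, nrm k φ s x ∂μ := by
    have h4 := setIntegral_chart_real hφ.toIsWeight hμ he (S.indicator (nrm k φ s))
    rw [setIntegral_indicator hSm, inter_eq_self_of_subset_right hSs] at h4
    rw [h4]
    have h5 : ∫ y in e.target, S.indicator (nrm k φ s) (e.symm y) * Real.exp (-φ e y)
        = ∫ y in e.target, cB.indicator (fun y => ‖s e y‖ ^ 2 * Real.exp (-(k * φ e y))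
          * Real.exp (-φ e y)) y := by
      refine setIntegral_congr_fun e.open_target.measurableSet fun y hy => ?_
      by_cases hyB : y ∈ cB
      · have hyS : e.symm y ∈ S := ⟨y, hyB, rfl⟩
        simp only [indicator_of_mem hyS, indicator_of_mem hyB]
        rw [nrm_eq hφ.toIsWeight hs.toIsSec he (e.map_target hy), e.right_inv hy]
      · have hyS : e.symm y ∉ S := by
          rintro ⟨z, hz, hzy⟩
          apply hyB
          rw [← e.right_inv hy, ← hzy, e.right_inv (hcBU hz)]
          exact hz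
        simp only [indicator_of_notMem hyS, indicator_of_notMem hyB, zero_mul]
    rw [h5, setIntegral_indicator hcBc.measurableSet, inter_eq_self_of_subset_right hcBU]
  have h6 : ∫ x in S, nrm k φ s x ∂μ ≤ ∫ x, nrm k φ s x ∂μ :=
    setIntegral_le_integral hint (Eventually.of_forall fun x => c2b_nrm_nonneg k φ s x)
  have h7 : δ * ∫ x, nrm k φ s x ∂μ ≤ ∫ x, nrm k φ s x * dl φ x ∂μ := by
    rw [← integral_const_mul]
    refine integral_mono (hint.const_mul δ) hint2 fun x => ?_
    simp only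
    rw [mul_comm]
    exact mul_le_mul_of_nonneg_left (hδle x) (c2b_nrm_nonneg k φ s x)
  have hkn : (0 : ℝ) ≤ (k : ℝ) ^ n := by positivity
  set I := ∫ y in cB, ‖s e y‖ ^ 2 * Real.exp (-(k * φ e y)) with hI
  set J := ∫ x, nrm k φ s x * dl φ x ∂μ with hJ
  have h8 : m * δ * I ≤ J := by
    calc m * δ * I = δ * (m * I) := by ring
      _ ≤ δ * ∫ x, nrm k φ s x ∂μ := by
          refine mul_le_mul_of_nonneg_left ?_ hδpos.le
          exact h2.trans (h3.le.trans h6)
      _ ≤ J := h7
  have h9 : I ≤ J / (m * δ) := by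
    rw [le_div_iff₀ (by positivity)]
    linarith
  calc nrm k φ s x ≤ C0 * (k : ℝ) ^ n * I := h1
    _ ≤ C0 * (k : ℝ) ^ n * (J / (m * δ)) := mul_le_mul_of_nonneg_left h9 (by positivity)
    _ = C0 / (m * δ) * (k : ℝ) ^ n * J := by ring

/-- Module C2: global sub-mean value inequality -/
theorem nrm_le (hφ : IsPos 1 φ) (hμ : IsDens μ φ) : ∃ C > 0, ∀ k : ℕ, 1 ≤ k →
    ∀ s : Fam n M ℂ, IsHol k s → ∀ x, nrm k φ s x ≤ C * (k : ℝ) ^ n *
      ∫ x, nrm k φ s x * dl φ x ∂μ := by
  rcases isEmpty_or_nonempty M with hM | hM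
  · exact ⟨1, one_pos, fun k _ s _ x => (hM.false x).elim⟩
  have key : ∃ C > 0, ∀ k : ℕ, 1 ≤ k → ∀ s : Fam n M ℂ, IsHol k s → ∀ x ∈ (univ : Set M),
      nrm k φ s x ≤ C * (k : ℝ) ^ n * ∫ x, nrm k φ s x * dl φ x ∂μ := by
    have hJ : ∀ (k : ℕ) (s : Fam n M ℂ), 0 ≤ ∫ x, nrm k φ s x * dl φ x ∂μ := fun k s =>
      integral_nonneg fun x => mul_nonneg (c2b_nrm_nonneg k φ s x) (dl_pos hφ x).le
    refine IsCompact.induction_on (p := fun S : Set M => ∃ C > 0, ∀ k : ℕ, 1 ≤ k →
      ∀ s : Fam n M ℂ, IsHol k s → ∀ x ∈ S,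
      nrm k φ s x ≤ C * (k : ℝ) ^ n * ∫ x, nrm k φ s x * dl φ x ∂μ) isCompact_univ ?_ ?_ ?_ ?_
    · exact ⟨1, one_pos, fun k _ s _ x hx => absurd hx (notMem_empty _)⟩
    · rintro S T hST ⟨C, hC, h⟩
      exact ⟨C, hC, fun k hk s hs x hx => h k hk s hs x (hST hx)⟩
    · rintro S T ⟨C, hC, h⟩ ⟨C', hC', h'⟩
      refine ⟨max C C', lt_max_of_lt_left hC, fun k hk s hs x hx => ?_⟩
      have hkn : (0 : ℝ) ≤ (k : ℝ) ^ n := by positivity
      rcases hx with hx | hx
      · exact (h k hk s hs x hx).trans (mul_le_mul_of_nonneg_right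
          (mul_le_mul_of_nonneg_right (le_max_left _ _) hkn) (hJ k s))
      · exact (h' k hk s hs x hx).trans (mul_le_mul_of_nonneg_right
          (mul_le_mul_of_nonneg_right (le_max_right _ _) hkn) (hJ k s))
    · intro x _
      obtain ⟨K, hK, hxK, hKU⟩ := exists_compact_subset (chartAt (E n) x).open_target
        (mem_chart_target (E n) x)
      obtain ⟨C, hC, h⟩ := c2b_local hφ hμ (chart_mem_atlas (E n) x) hK hKU
      refine ⟨(chartAt (E n) x).source ∩ (chartAt (E n) x) ⁻¹' (interior K), ?_, C, hC,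
        fun k hk s hs y hy => h k hk s hs y hy.1 (interior_subset hy.2)⟩
      refine mem_nhdsWithin_of_mem_nhds ?_
      exact ((chartAt (E n) x).isOpen_inter_preimage isOpen_interior).mem_nhds
        ⟨mem_chart_source (E n) x, hxK⟩
  obtain ⟨C, hC, h⟩ := key
  exact ⟨C, hC, fun k hk s hs x => h k hk s hs x (mem_univ x)⟩

end Pool.Agent.helper63.NU
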